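import Pool.Agent.Q205.WV.Stm

/-!
# Project WV, job TV: values of the truncated tangent
-/

set_option autoImplicit false

namespace Pool.Agent.Q31.WV.TV

open MeasureTheory Pool.Agent.Q205.WV

theorem fre (φ : ℝ) : (fourier 1 (φ : UnitAddCircle) : ℂ).re = Real.cos (2 * Real.pi * φ) ∧
    (fourier 1 (φ : UnitAddCircle) : ℂ).im = Real.sin (2 * Real.pi * φ) := by
  have h : (fourier 1 (φ : UnitAddCircle) : ℂ) =
      Complex.exp (((2 * Real.pi * φ : ℝ) : ℂ) * Complex.I) := by
    rw [fourier_coe_apply]
    congr 1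
    push_cast
    ring
  rw [h, Complex.exp_ofReal_mul_I_re, Complex.exp_ofReal_mul_I_im]
  exact ⟨rfl, rfl⟩

theorem fTeq (τ φ : ℝ) : fT τ (φ : UnitAddCircle) =
    -Real.sin (2 * Real.pi * φ) / max (1 - Real.cos (2 * Real.pi * φ)) (1 - Real.cos (Real.pi * τ))
    * ((1 - Real.cos (Real.pi * τ)) / Real.sin (Real.pi * τ)) := by
  unfold fT
  rw [(fre φ).1, (fre φ).2]

theorem cntB (b : ℝ) : {φ : ℝ | Real.sin (2 * Real.pi * φ) = b}.Countable := by
  by_cases h : ∃ φ0 : ℝ, Real.sin (2 * Real.pi * φ0) = b
  · obtain ⟨φ0, h0⟩ := h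
    refine Set.Countable.mono ?_ ((Set.countable_range fun k : ℤ => φ0 - k).union
      (Set.countable_range fun k : ℤ => (2 * (k : ℝ) + 1) / 2 - φ0))
    intro φ hφ
    have h1 : Real.sin (2 * Real.pi * φ) = Real.sin (2 * Real.pi * φ0) := by
      rw [h0]; exact hφ
    obtain ⟨k, hk | hk⟩ := Real.sin_eq_sin_iff.1 h1
    · left
      refine ⟨k, ?_⟩
      have hp := Real.pi_pos
      have : 2 * Real.pi * (φ0 - k - φ) = 0 := by linarith
      have h2 : φ0 - k - φ = 0 := by
        rcases mul_eq_zero.1 this with h | h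
        · exact absurd h (by positivity)
        · exact h
      show φ0 - (k : ℝ) = φ
      linarith
    · right
      refine ⟨k, ?_⟩
      have hp := Real.pi_pos
      have : 2 * Real.pi * ((2 * (k : ℝ) + 1) / 2 - φ0 - φ) = 0 := by linarith
      have h2 : (2 * (k : ℝ) + 1) / 2 - φ0 - φ = 0 := by
        rcases mul_eq_zero.1 this with h | h
        · exact absurd h (by positivity)
        · exact h
      show (2 * (k : ℝ) + 1) / 2 - φ0 = φ
      linarith
  · have : {φ : ℝ | Real.sin (2 * Real.pi * φ) = b} = ∅ := by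
      ext φ
      simp only [Set.mem_ofPred_eq, Set.mem_empty_iff_false, iff_false]
      exact fun hφ => h ⟨φ, hφ⟩
    rw [this]
    exact Set.countable_empty

theorem cntA (p q : ℝ) (hp : p ≠ 0) :
    {φ : ℝ | p * Real.cos (Real.pi * φ) = q * Real.sin (Real.pi * φ)}.Countable := by
  by_cases h : ∃ φ0 : ℝ, p * Real.cos (Real.pi * φ0) = q * Real.sin (Real.pi * φ0)
  · obtain ⟨φ0, h0⟩ := h
    refine Set.Countable.mono ?_ (Set.countable_range fun k : ℤ => φ0 + k)
    intro φ hφ
    have hφ' : p * Real.cos (Real.pi * φ) = q * Real.sin (Real.pi * φ) := hφ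
    have h1 : p * Real.sin (Real.pi * φ - Real.pi * φ0) = 0 := by
      rw [Real.sin_sub]
      linear_combination Real.sin (Real.pi * φ) * h0 - Real.sin (Real.pi * φ0) * hφ'
    have h2 : Real.sin (Real.pi * φ - Real.pi * φ0) = 0 := by
      rcases mul_eq_zero.1 h1 with h | h
      · exact absurd h hp
      · exact h
    obtain ⟨k, hk⟩ := Real.sin_eq_zero_iff.1 h2
    refine ⟨k, ?_⟩
    have hpi := Real.pi_pos
    have : Real.pi * (φ0 + k - φ) = 0 := by linarith
    have h3 : φ0 + k - φ = 0 := by
      rcases mul_eq_zero.1 this with h | h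
      · exact absurd h (by positivity)
      · exact h
    show φ0 + (k : ℝ) = φ
    linarith
  · have : {φ : ℝ | p * Real.cos (Real.pi * φ) = q * Real.sin (Real.pi * φ)} = ∅ := by
      ext φ
      simp only [Set.mem_ofPred_eq, Set.mem_empty_iff_false, iff_false]
      exact fun hφ => h ⟨φ, hφ⟩
    rw [this]
    exact Set.countable_empty

theorem main : S_TV := by
  intro τ hτ hτ2
  have hpi := Real.pi_pos
  have hα : 0 < Real.pi * τ := by positivity
  have hα2 : Real.pi * τ ≤ Real.pi / 2 := by nlinarith
  have hs : 0 < Real.sin (Real.pi * τ) := Real.sin_pos_of_pos_of_lt_pi hα (by linarith)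
  have hc0 : 0 ≤ Real.cos (Real.pi * τ) :=
    Real.cos_nonneg_of_neg_pi_div_two_le_of_le (by linarith) hα2
  have hsc := Real.sin_sq_add_cos_sq (Real.pi * τ)
  have hδ : 0 < 1 - Real.cos (Real.pi * τ) := by nlinarith
  set s := Real.sin (Real.pi * τ) with hsdef
  set c := Real.cos (Real.pi * τ) with hcdef
  refine ⟨?_, ?_, ?_, ?_⟩
  · unfold fT
    have h1 : Continuous fun t : UnitAddCircle => (fourier 1 t : ℂ) := (fourier 1).continuous
    refine Continuous.mul (Continuous.div (Complex.continuous_im.comp h1).neg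
      ((continuous_const.sub (Complex.continuous_re.comp h1)).max continuous_const) ?_)
      continuous_const
    intro t
    exact (lt_of_lt_of_le hδ (le_max_right _ _)).ne'
  · intro t
    obtain ⟨φ, rfl⟩ := QuotientAddGroup.mk_surjective t
    rw [fTeq, ← hsdef, ← hcdef]
    set x := Real.cos (2 * Real.pi * φ)
    set y := Real.sin (2 * Real.pi * φ)
    have hxy : y ^ 2 + x ^ 2 = 1 := Real.sin_sq_add_cos_sq _
    have hm : 0 < max (1 - x) (1 - c) := lt_of_lt_of_le hδ (le_max_right _ _)
    have hx1 : x ≤ 1 := Real.cos_le_one _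
    have hx2 : -1 ≤ x := Real.neg_one_le_cos _
    have key : |y| * (1 - c) ≤ s * max (1 - x) (1 - c) := by
      rcases le_total (1 - x) (1 - c) with h | h
      · rw [max_eq_right h]
        refine mul_le_mul_of_nonneg_right ?_ hδ.le
        exact abs_le_of_sq_le_sq (by nlinarith) hs.le
      · rw [max_eq_left h]
        have h1 : |y * (1 - c)| ≤ s * (1 - x) := by
          refine abs_le_of_sq_le_sq ?_ (mul_nonneg hs.le (by linarith))
          have e1 : (y * (1 - c)) ^ 2 = (1 - x) * (1 + x) * (1 - c) ^ 2 := by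
            have : y ^ 2 = (1 - x) * (1 + x) := by linarith
            rw [mul_pow, this]
          have e2 : (s * (1 - x)) ^ 2 = (1 - c) * (1 + c) * (1 - x) ^ 2 := by
            have : s ^ 2 = (1 - c) * (1 + c) := by linarith
            rw [mul_pow, this]
          rw [e1, e2]
          have hx3 : 0 ≤ 1 - x := by linarith
          have h3 : 0 ≤ (1 - x) * (1 - c) * ((1 + c) * (1 - x) - (1 + x) * (1 - c)) :=
            mul_nonneg (mul_nonneg hx3 hδ.le) (by nlinarith)
          nlinarith
        rwa [abs_mul, abs_of_pos hδ] at h1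
    rw [abs_mul, abs_div, abs_neg, abs_of_pos hm, abs_of_pos (div_pos hδ hs), div_mul_div_comm,
      div_le_one (mul_pos hm hs)]
    linarith
  · intro γ hγ
    have hR : 0 < RT γ τ := by
      unfold RT
      exact div_pos (mul_pos hγ hs) hδ
    refine ⟨hR, ?_, ?_⟩
    · unfold RT
      rw [← hsdef, ← hcdef]
      have hh : s * (Real.pi * τ) ≤ 2 * (1 - c) := by
        set h := Real.pi * τ / 2 with hh
        have e0 : Real.pi * τ = 2 * h := by rw [hh]; ring
        have e1 : s = 2 * Real.sin h * Real.cos h := by rw [hsdef, e0, Real.sin_two_mul]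
        have e2 : c = 1 - 2 * Real.sin h ^ 2 := by
          rw [hcdef, e0, Real.cos_two_mul]
          have := Real.sin_sq_add_cos_sq h
          linarith
        have hp : 0 < h := by positivity
        have hlt : h < Real.pi / 2 := by linarith
        have hsin : 0 < Real.sin h := Real.sin_pos_of_pos_of_lt_pi hp (by linarith)
        have hcos : 0 < Real.cos h := Real.cos_pos_of_mem_Ioo ⟨by linarith, hlt⟩
        have ht := Real.le_tan hp.le hlt
        rw [Real.tan_eq_sin_div_cos, le_div_iff₀ hcos] at ht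
        rw [e0, e1, e2]
        nlinarith [mul_le_mul_of_nonneg_left ht hsin.le]
      rw [mul_div_assoc]
      refine mul_le_mul_of_nonneg_left ?_ hγ.le
      rw [div_le_div_iff₀ hδ hα]
      exact hh
    · intro φ h1 h2
      have hcos : Real.cos (2 * Real.pi * φ) ≤ c := by
        rcases le_total (2 * Real.pi * φ) Real.pi with h | h
        · exact Real.cos_le_cos_of_nonneg_of_le_pi hα.le h (by nlinarith)
        · have e : Real.cos (2 * Real.pi * φ) = Real.cos (2 * Real.pi - 2 * Real.pi * φ) := by
            rw [Real.cos_two_pi_sub]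
          rw [e]
          exact Real.cos_le_cos_of_nonneg_of_le_pi hα.le (by linarith) (by nlinarith)
      have hφ0 : 0 < Real.pi * φ := by
        have : 0 < φ := by linarith
        positivity
      have hφ1 : Real.pi * φ < Real.pi := by nlinarith
      have hsφ : 0 < Real.sin (Real.pi * φ) := Real.sin_pos_of_pos_of_lt_pi hφ0 hφ1
      rw [fTeq, ← hsdef, ← hcdef, max_eq_left (by linarith)]
      unfold RT
      rw [← hsdef, ← hcdef]
      have e3 : 2 * Real.pi * φ = 2 * (Real.pi * φ) := by ring
      have e4 : Real.pi * (φ - 1 / 2) = Real.pi * φ - Real.pi / 2 := by ring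
      rw [e3, e4, Real.tan_eq_sin_div_cos, Real.sin_sub_pi_div_two, Real.cos_sub_pi_div_two,
        Real.sin_two_mul]
      have e5 : 1 - Real.cos (2 * (Real.pi * φ)) = 2 * Real.sin (Real.pi * φ) ^ 2 := by
        rw [Real.cos_two_mul]
        have := Real.sin_sq_add_cos_sq (Real.pi * φ)
        linarith
      rw [e5]
      have hs' := hs.ne'
      have hδ' := hδ.ne'
      have hsφ' := hsφ.ne'
      field_simp
  · intro a
    have hc1 : 0 < (1 - c) / s := div_pos hδ hs
    refine Set.Countable.measure_zero (μ := volume) ?_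
    refine Set.Countable.mono ?_ ((cntA (-((1 - c) / s)) a (by
      have := hc1.ne'
      simpa using this)).union ((cntB (-(a * (1 - c)) / ((1 - c) / s))).union
        (Set.countable_singleton (1 : ℝ))))
    rintro φ ⟨hφ, hf⟩
    rw [fTeq, ← hsdef, ← hcdef] at hf
    by_cases hφ1 : φ = 1
    · right; right; exact hφ1
    have hφ0 : 0 < Real.pi * φ := mul_pos hpi hφ.1
    have hφ2 : Real.pi * φ < Real.pi := by
      have : φ < 1 := lt_of_le_of_ne hφ.2 hφ1
      nlinarith
    have hsφ : 0 < Real.sin (Real.pi * φ) := Real.sin_pos_of_pos_of_lt_pi hφ0 hφ2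
    have e3 : 2 * Real.pi * φ = 2 * (Real.pi * φ) := by ring
    rcases le_total (1 - Real.cos (2 * Real.pi * φ)) (1 - c) with h | h
    · right; left
      rw [max_eq_right h] at hf
      show Real.sin (2 * Real.pi * φ) = -(a * (1 - c)) / ((1 - c) / s)
      rw [← hf]
      have hs' := hs.ne'
      have hδ' := hδ.ne'
      field_simp
    · left
      rw [max_eq_left h] at hf
      show -((1 - c) / s) * Real.cos (Real.pi * φ) = a * Real.sin (Real.pi * φ)
      have e5 : 1 - Real.cos (2 * (Real.pi * φ)) = 2 * Real.sin (Real.pi * φ) ^ 2 := by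
        rw [Real.cos_two_mul]
        have := Real.sin_sq_add_cos_sq (Real.pi * φ)
        linarith
      rw [e3, e5, Real.sin_two_mul] at hf
      rw [← hf]
      have hs' := hs.ne'
      have hδ' := hδ.ne'
      have hsφ' := hsφ.ne'
      field_simp

end Pool.Agent.Q31.WV.TV
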